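import Pool.Agent.Lib_helper52.LatL

/-!
# Block S, part A: inner product on matrices, orthogonal decomposition, basics on `exp`
-/

namespace Pool.Agent.Lat

open Set Topology Matrix

variable {m : ℕ}

/-- the Hilbert-Schmidt inner product -/
noncomputable def hs (A B : Matrix (Fin m) (Fin m) ℝ) : ℝ := Matrix.trace (Aᵀ * B)

theorem hs_comm (A B : Matrix (Fin m) (Fin m) ℝ) : hs A B = hs B A := by
  unfold hs
  rw [← Matrix.trace_transpose, Matrix.transpose_mul, Matrix.transpose_transpose]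

theorem hs_self_eq (A : Matrix (Fin m) (Fin m) ℝ) : hs A A = ∑ i, ∑ j, A j i ^ 2 := by
  unfold hs
  simp only [Matrix.trace, Matrix.diag_apply, Matrix.mul_apply, Matrix.transpose_apply]
  refine Finset.sum_congr rfl fun i _ => Finset.sum_congr rfl fun j _ => by ring

theorem hs_self_nonneg (A : Matrix (Fin m) (Fin m) ℝ) : 0 ≤ hs A A := by
  rw [hs_self_eq]
  exact Finset.sum_nonneg fun i _ => Finset.sum_nonneg fun j _ => sq_nonneg _

theorem hs_self_eq_zero {A : Matrix (Fin m) (Fin m) ℝ} (h : hs A A ≤ 0) : A = 0 := by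
  rw [hs_self_eq] at h
  have h0 : ∑ i, ∑ j, A j i ^ 2 = 0 :=
    le_antisymm h (Finset.sum_nonneg fun i _ => Finset.sum_nonneg fun j _ => sq_nonneg _)
  rw [Finset.sum_eq_zero_iff_of_nonneg
    (fun i _ => Finset.sum_nonneg fun j _ => sq_nonneg _)] at h0
  ext j i
  have h1 := h0 i (Finset.mem_univ _)
  rw [Finset.sum_eq_zero_iff_of_nonneg (fun j _ => sq_nonneg _)] at h1
  have h2 := h1 j (Finset.mem_univ _)
  simpa using h2

theorem hs_add_left (A B C : Matrix (Fin m) (Fin m) ℝ) : hs (A + B) C = hs A C + hs B C := by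
  unfold hs; rw [Matrix.transpose_add, Matrix.add_mul, Matrix.trace_add]

theorem hs_sub_left (A B C : Matrix (Fin m) (Fin m) ℝ) : hs (A - B) C = hs A C - hs B C := by
  unfold hs; rw [Matrix.transpose_sub, Matrix.sub_mul, Matrix.trace_sub]

theorem hs_add_right (A B C : Matrix (Fin m) (Fin m) ℝ) : hs C (A + B) = hs C A + hs C B := by
  unfold hs; rw [Matrix.mul_add, Matrix.trace_add]

theorem hs_sub_right (A B C : Matrix (Fin m) (Fin m) ℝ) : hs C (A - B) = hs C A - hs C B := by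
  unfold hs; rw [Matrix.mul_sub, Matrix.trace_sub]

theorem hs_smul_right (c : ℝ) (A B : Matrix (Fin m) (Fin m) ℝ) : hs A (c • B) = c * hs A B := by
  unfold hs; rw [Matrix.mul_smul, Matrix.trace_smul, smul_eq_mul]

theorem hs_smul_left (c : ℝ) (A B : Matrix (Fin m) (Fin m) ℝ) : hs (c • A) B = c * hs A B := by
  rw [hs_comm, hs_smul_right, hs_comm]

theorem hs_mul_left (C A B : Matrix (Fin m) (Fin m) ℝ) : hs (C * A) B = hs A (Cᵀ * B) := by
  unfold hs; rw [Matrix.transpose_mul, Matrix.mul_assoc]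

theorem hs_mul_right (C A B : Matrix (Fin m) (Fin m) ℝ) : hs (A * C) B = hs A (B * Cᵀ) := by
  unfold hs
  rw [Matrix.transpose_mul, Matrix.mul_assoc, Matrix.trace_mul_comm, Matrix.mul_assoc]

/-- as a bilinear form -/
noncomputable def hsForm (m : ℕ) : LinearMap.BilinForm ℝ (Matrix (Fin m) (Fin m) ℝ) :=
  LinearMap.mk₂ ℝ hs hs_add_left (fun c A B => by rw [hs_smul_left, smul_eq_mul])
    (fun A B C => hs_add_right B C A) (fun c A B => by rw [hs_smul_right, smul_eq_mul])

theorem hsForm_apply (A B : Matrix (Fin m) (Fin m) ℝ) : hsForm m A B = hs A B := rfl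

/-- A symmetric bilinear form which is nondegenerate on a subspace gives a decomposition. -/
theorem form_decomp {V : Type*} [AddCommGroup V] [Module ℝ V] [FiniteDimensional ℝ V]
    (B : LinearMap.BilinForm ℝ V) (hB : ∀ x y, B x y = B y x) (W : Submodule ℝ V)
    (hW : ∀ x ∈ W, (∀ y ∈ W, B y x = 0) → x = 0) (X : V) :
    ∃ w ∈ W, ∀ v ∈ W, B (X - w) v = 0 := by
  have hrefl : B.IsRefl := by
    intro x y h
    rw [hB]; exact h
  have hd : Disjoint W (B.orthogonal W) := by
    rw [Submodule.disjoint_def]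
    intro x hx hx'
    rw [LinearMap.BilinForm.mem_orthogonal_iff] at hx'
    exact hW x hx fun y hy => hx' y hy
  have hc : IsCompl W (B.orthogonal W) :=
    (LinearMap.BilinForm.isCompl_orthogonal_iff_disjoint hrefl).2 hd
  have hX : X ∈ W ⊔ B.orthogonal W := by rw [hc.sup_eq_top]; trivial
  obtain ⟨w, hw, v, hv, rfl⟩ := Submodule.mem_sup.1 hX
  refine ⟨w, hw, fun u hu => ?_⟩
  rw [LinearMap.BilinForm.mem_orthogonal_iff] at hv
  rw [add_sub_cancel_left, hB]
  exact hv u hu

/-- Orthogonal decomposition. -/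
theorem hs_decomp (W : Submodule ℝ (Matrix (Fin m) (Fin m) ℝ)) (X : Matrix (Fin m) (Fin m) ℝ) :
    ∃ w ∈ W, ∀ v ∈ W, hs (X - w) v = 0 :=
  form_decomp (hsForm m) hs_comm W (fun x hx h => hs_self_eq_zero (le_of_eq (h x hx))) X

/-- the trace form -/
noncomputable def trForm (m : ℕ) : LinearMap.BilinForm ℝ (Matrix (Fin m) (Fin m) ℝ) :=
  LinearMap.mk₂ ℝ (fun A B => Matrix.trace (A * B))
    (fun A B C => by rw [Matrix.add_mul, Matrix.trace_add])
    (fun c A B => by rw [Matrix.smul_mul, Matrix.trace_smul])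
    (fun A B C => by rw [Matrix.mul_add, Matrix.trace_add])
    (fun c A B => by rw [Matrix.mul_smul, Matrix.trace_smul])

theorem trForm_apply (A B : Matrix (Fin m) (Fin m) ℝ) :
    trForm m A B = Matrix.trace (A * B) := rfl

/-! ## basics on the exponential -/

theorem expGL_val (X : Matrix (Fin m) (Fin m) ℝ) :
    (expGL X : Matrix (Fin m) (Fin m) ℝ) = NormedSpace.exp X := rfl

theorem expGL_zero : expGL (0 : Matrix (Fin m) (Fin m) ℝ) = 1 := by
  ext1
  rw [expGL_val, NormedSpace.exp_zero]; rfl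

theorem expGL_add {X Y : Matrix (Fin m) (Fin m) ℝ} (h : Commute X Y) :
    expGL (X + Y) = expGL X * expGL Y := by
  ext1
  rw [Units.val_mul, expGL_val, expGL_val, expGL_val, Matrix.exp_add_of_commute _ _ h]

theorem expGL_neg (X : Matrix (Fin m) (Fin m) ℝ) : expGL (-X) = (expGL X)⁻¹ := by
  ext1; rfl

theorem expGL_smul_add (s t : ℝ) (X : Matrix (Fin m) (Fin m) ℝ) :
    expGL ((s + t) • X) = expGL (s • X) * expGL (t • X) := by
  rw [add_smul]
  exact expGL_add (((Commute.refl X).smul_left s).smul_right t)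

theorem expGL_conj (g : GL (Fin m) ℝ) (X : Matrix (Fin m) (Fin m) ℝ) :
    expGL ((g : Matrix (Fin m) (Fin m) ℝ) * X * ((g⁻¹ : GL (Fin m) ℝ) : Matrix (Fin m) (Fin m) ℝ)) =
      g * expGL X * g⁻¹ := by
  ext1
  rw [Units.val_mul, Units.val_mul, expGL_val, expGL_val]
  exact Matrix.exp_units_conj g X

theorem expGL_transpose (X : Matrix (Fin m) (Fin m) ℝ) :
    (expGL Xᵀ : Matrix (Fin m) (Fin m) ℝ) = (expGL X : Matrix (Fin m) (Fin m) ℝ)ᵀ := by
  rw [expGL_val, expGL_val, Matrix.exp_transpose]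

/-- if `exp (t X)` is the identity for all `t` then `X = 0` -/
theorem eq_zero_of_expGL_eq_one {X : Matrix (Fin m) (Fin m) ℝ}
    (h : ∀ t : ℝ, expGL (t • X) = 1) : X = 0 := by
  let _ := Matrix.linftyOpNormedRing (n := Fin m) (α := ℝ)
  let _ := Matrix.linftyOpNormedAlgebra (n := Fin m) (R := ℝ) (α := ℝ)
  have h1 : HasDerivAt (fun t : ℝ => NormedSpace.exp (t • X)) (NormedSpace.exp ((0 : ℝ) • X) * X) 0 :=
    hasDerivAt_exp_smul_const X (0 : ℝ)
  have h2 : (fun t : ℝ => NormedSpace.exp (t • X)) = fun _ => 1 := by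
    funext t
    rw [← expGL_val, h t]; rfl
  rw [h2] at h1
  have h3 := h1.unique (hasDerivAt_const (0 : ℝ) (1 : Matrix (Fin m) (Fin m) ℝ))
  rw [zero_smul, NormedSpace.exp_zero, one_mul] at h3
  exact h3

/-- if `exp (t X)` commutes with `Y` for all `t` then so does `X` -/
theorem commute_of_expGL_commute {X Y : Matrix (Fin m) (Fin m) ℝ}
    (h : ∀ t : ℝ, (expGL (t • X) : Matrix (Fin m) (Fin m) ℝ) * Y =
      Y * (expGL (t • X) : Matrix (Fin m) (Fin m) ℝ)) : X * Y = Y * X := by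
  let _ := Matrix.linftyOpNormedRing (n := Fin m) (α := ℝ)
  let _ := Matrix.linftyOpNormedAlgebra (n := Fin m) (R := ℝ) (α := ℝ)
  have h1 : HasDerivAt (fun t : ℝ => NormedSpace.exp (t • X)) (NormedSpace.exp ((0 : ℝ) • X) * X) 0 :=
    hasDerivAt_exp_smul_const X (0 : ℝ)
  have h2 := h1.mul_const Y
  have h3 := h1.const_mul Y
  have h4 : (fun t : ℝ => NormedSpace.exp (t • X) * Y) = fun t => Y * NormedSpace.exp (t • X) := by
    funext t
    exact h t
  rw [h4] at h2
  have h5 := h2.unique h3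
  rw [zero_smul, NormedSpace.exp_zero, one_mul] at h5
  exact h5

/-- derivative of conjugation: bracket in an invariant subspace -/
theorem bracket_mem_of_conj (W : Submodule ℝ (Matrix (Fin m) (Fin m) ℝ))
    {X Y : Matrix (Fin m) (Fin m) ℝ}
    (h : ∀ t : ℝ, (expGL (t • Y) : Matrix (Fin m) (Fin m) ℝ) * X *
      ((expGL (t • Y))⁻¹ : GL (Fin m) ℝ) ∈ W) : Y * X - X * Y ∈ W := by
  let _ := Matrix.linftyOpNormedRing (n := Fin m) (α := ℝ)
  let _ := Matrix.linftyOpNormedAlgebra (n := Fin m) (R := ℝ) (α := ℝ)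
  have h1 : HasDerivAt (fun t : ℝ => NormedSpace.exp (t • Y)) (NormedSpace.exp ((0 : ℝ) • Y) * Y) 0 :=
    hasDerivAt_exp_smul_const Y (0 : ℝ)
  have h2 : HasDerivAt (fun t : ℝ => NormedSpace.exp (t • (-Y)))
      (NormedSpace.exp ((0 : ℝ) • (-Y)) * (-Y)) 0 :=
    hasDerivAt_exp_smul_const (-Y) (0 : ℝ)
  rw [zero_smul, NormedSpace.exp_zero, one_mul] at h1 h2
  have h3 := (h1.mul_const X).mul h2
  simp only [zero_smul, NormedSpace.exp_zero, one_mul, mul_one] at h3
  have h4 := hasDerivAt_iff_tendsto_slope_zero.1 h3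
  have hcl : IsClosed (W : Set (Matrix (Fin m) (Fin m) ℝ)) := W.closed_of_finiteDimensional
  have h5 : Y * X + X * -Y = Y * X - X * Y := by rw [mul_neg, sub_eq_add_neg]
  rw [← h5]
  refine hcl.mem_of_tendsto h4 ?_
  filter_upwards with t
  refine W.smul_mem _ (W.sub_mem ?_ ?_)
  · have := h (0 + t)
    rw [← expGL_neg] at this
    simpa [expGL_val] using this
  · have := h 0
    rw [← expGL_neg] at this
    simpa [expGL_val] using this

end Pool.Agent.Lat
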