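import Pool.Agent.Lib_helper41.Lat.S.B

/-!
# Block S, part C: the group `G`; topology, compact generation, Borel density for centralisers
-/

namespace Pool.Agent.Lat

open Set Topology Matrix

variable {m : ℕ}

/-- the centraliser of a matrix -/
def centSub (Y : Matrix (Fin m) (Fin m) ℝ) : Subgroup (GL (Fin m) ℝ) where
  carrier := {n | (n : Matrix (Fin m) (Fin m) ℝ) * Y = Y * n}
  one_mem' := by simp
  mul_mem' := by
    intro a b ha hb
    change (a : Matrix (Fin m) (Fin m) ℝ) * Y = Y * a at ha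
    change (b : Matrix (Fin m) (Fin m) ℝ) * Y = Y * b at hb
    change ((a * b : GL (Fin m) ℝ) : Matrix (Fin m) (Fin m) ℝ) * Y = Y * (a * b : GL (Fin m) ℝ)
    rw [Units.val_mul, Matrix.mul_assoc, hb, ← Matrix.mul_assoc, ha, Matrix.mul_assoc]
  inv_mem' := by
    intro a ha
    change (a : Matrix (Fin m) (Fin m) ℝ) * Y = Y * a at ha
    change ((a⁻¹ : GL (Fin m) ℝ) : Matrix (Fin m) (Fin m) ℝ) * Y = Y * (a⁻¹ : GL (Fin m) ℝ)
    have h1 := congrArg (fun M => ((a⁻¹ : GL (Fin m) ℝ) : Matrix (Fin m) (Fin m) ℝ) * M *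
      ((a⁻¹ : GL (Fin m) ℝ) : Matrix (Fin m) (Fin m) ℝ)) ha
    beta_reduce at h1
    rw [← Matrix.mul_assoc, Units.inv_mul, Matrix.one_mul, Matrix.mul_assoc, Matrix.mul_assoc,
      Units.mul_inv, Matrix.mul_one] at h1
    exact h1.symm

theorem mem_centSub {Y : Matrix (Fin m) (Fin m) ℝ} {n : GL (Fin m) ℝ} :
    n ∈ centSub Y ↔ (n : Matrix (Fin m) (Fin m) ℝ) * Y = Y * n := Iff.rfl

theorem isClosed_centSub (Y : Matrix (Fin m) (Fin m) ℝ) :
    IsClosed (centSub Y : Set (GL (Fin m) ℝ)) := isClosed_commute Y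

section SS0
variable {G : Type*} [Group G] [TopologicalSpace G]

/-- Bundled extraction of the data. -/
theorem IsLinearSemisimple.toSS (hG : IsLinearSemisimple G) :
    ∃ (m : ℕ) (ρ : G →* GL (Fin m) ℝ), IsClosedEmbedding ρ ∧ SS ρ.range := by
  obtain ⟨hc, hz, hN, m, ρ, hρ, htr⟩ := hG
  refine ⟨m, ρ, hρ, ?_, ?_, ?_, ?_, ?_⟩
  · rw [MonoidHom.coe_range]; exact hρ.isClosed_range
  · rw [MonoidHom.coe_range]
    exact isConnected_range hρ.continuous
  · rintro _ ⟨g, rfl⟩
    obtain ⟨g', hg'⟩ := htr g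
    exact ⟨ρ g', ⟨g', rfl⟩, hg'⟩
  · refine (hz.image ρ).subset ?_
    rintro _ ⟨⟨z, rfl⟩, h⟩
    refine ⟨z, ?_, rfl⟩
    rw [Semigroup.mem_center_iff]
    intro g
    apply hρ.injective
    rw [map_mul, map_mul]
    exact h (ρ g) ⟨g, rfl⟩
  · intro N hNR hNn hNc
    have h1 : ((N.comap ρ : Subgroup G) : Set G).Finite := by
      refine hN _ ⟨fun n hn g => ?_⟩ ?_
      · rw [Subgroup.mem_comap] at hn ⊢
        rw [map_mul, map_mul, map_inv]
        exact hNn (ρ g) ⟨g, rfl⟩ (ρ n) hn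
      · rw [Subgroup.coe_comap]
        exact hρ.isCompact_preimage hNc
    refine (h1.image ρ).subset ?_
    intro n hn
    obtain ⟨g, rfl⟩ := hNR hn
    exact ⟨g, hn, rfl⟩

theorem isClosedEmbedding_units :
    IsClosedEmbedding (Units.embedProduct (Matrix (Fin m) (Fin m) ℝ)) :=
  Units.isClosedEmbedding_embedProduct

end SS0

section SS
variable {G : Type*} [Group G] [TopologicalSpace G] [IsTopologicalGroup G]

omit [IsTopologicalGroup G] in
theorem ss_topology0 (hG : IsLinearSemisimple G) :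
    LocallyCompactSpace G ∧ SecondCountableTopology G ∧ T2Space G := by
  obtain ⟨m, ρ, hρ, -⟩ := hG.toSS
  have h1 := isClosedEmbedding_units.comp hρ
  have i1 : LocallyCompactSpace (Matrix (Fin m) (Fin m) ℝ) :=
    inferInstanceAs (LocallyCompactSpace (Fin m → Fin m → ℝ))
  have i2 : SecondCountableTopology (Matrix (Fin m) (Fin m) ℝ) :=
    inferInstanceAs (SecondCountableTopology (Fin m → Fin m → ℝ))
  have i4 : SecondCountableTopology (Matrix (Fin m) (Fin m) ℝ)ᵐᵒᵖ :=
    MulOpposite.opHomeomorph.symm.isEmbedding.secondCountableTopology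
  exact ⟨h1.locallyCompactSpace, h1.isEmbedding.secondCountableTopology, h1.isEmbedding.t2Space⟩

theorem ss_topology (hG : IsLinearSemisimple G) :
    LocallyCompactSpace G ∧ SecondCountableTopology G ∧ T2Space G := ss_topology0 hG

theorem ss_compactlyGen (hG : IsLinearSemisimple G) :
    CompactlyGen (⊤ : Subgroup G) := by
  obtain ⟨h1, h2, h3⟩ := ss_topology hG
  have hc : ConnectedSpace G := hG.1
  obtain ⟨K, hK, hK1⟩ := exists_compact_mem_nhds (1 : G)
  refine ⟨K, hK, ?_⟩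
  have ho : IsOpen ((Subgroup.closure K : Subgroup G) : Set G) :=
    Subgroup.isOpen_of_mem_nhds _ (g := 1) (Filter.mem_of_superset hK1 Subgroup.subset_closure)
  have hcl : IsClopen ((Subgroup.closure K : Subgroup G) : Set G) :=
    ⟨Subgroup.isClosed_of_isOpen _ ho, ho⟩
  have := hcl.eq_univ ⟨1, Subgroup.one_mem _⟩
  rw [← Subgroup.coe_top] at this
  exact SetLike.coe_injective this

/-- Borel density by the maximum principle, for the adjoint action on matrices. -/
theorem density_matrix (ρ : G →* GL (Fin m) ℝ) (hρ : Continuous ρ) (hR : SS ρ.range)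
    (B : Set G) (hB : Cocompact B) (Y : Matrix (Fin m) (Fin m) ℝ)
    (hY : ∀ b ∈ B, (ρ b : Matrix (Fin m) (Fin m) ℝ) * Y = Y * ρ b) (g : G) :
    (ρ g : Matrix (Fin m) (Fin m) ℝ) * Y = Y * ρ g := by
  let A : G → Matrix (Fin m) (Fin m) ℝ := fun g =>
    ((ρ g)⁻¹ : GL (Fin m) ℝ) * Y * (ρ g : Matrix (Fin m) (Fin m) ℝ)
  have hAdef : ∀ g, A g = ((ρ g)⁻¹ : GL (Fin m) ℝ) * Y * (ρ g : Matrix (Fin m) (Fin m) ℝ) :=
    fun _ => rfl
  have hAc : Continuous A := by
    have c1 : Continuous fun g => (ρ g : Matrix (Fin m) (Fin m) ℝ) :=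
      Units.continuous_val.comp hρ
    have c2 : Continuous fun g => (((ρ g)⁻¹ : GL (Fin m) ℝ) : Matrix (Fin m) (Fin m) ℝ) :=
      Units.continuous_val.comp (continuous_inv.comp hρ)
    exact (c2.matrix_mul continuous_const).matrix_mul c1
  let F : G → ℝ := fun g => hs (A g) (A g)
  have hFc : Continuous F := by
    have : Continuous fun g => ∑ i, ∑ j, (A g) j i ^ 2 := by
      refine continuous_finsetSum _ fun i _ => continuous_finsetSum _ fun j _ => ?_
      exact (hAc.matrix_elem j i).pow 2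
    convert this using 2 with g
    exact hs_self_eq _
  have hAb : ∀ b ∈ B, ∀ g, A (b * g) = A g := by
    intro b hb g
    rw [hAdef, hAdef, map_mul, _root_.mul_inv_rev, Units.val_mul, Units.val_mul]
    have h1 : Y = ((ρ b)⁻¹ : GL (Fin m) ℝ) * Y * (ρ b : Matrix (Fin m) (Fin m) ℝ) := by
      rw [Matrix.mul_assoc, ← hY b hb, ← Matrix.mul_assoc, Units.inv_mul, Matrix.one_mul]
    conv_rhs => rw [h1]
    simp only [Matrix.mul_assoc]
  obtain ⟨Q, hQ, hBQ⟩ := hB
  have hQne : Q.Nonempty := by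
    obtain ⟨b, hb, q, hq, -⟩ := hBQ 1
    exact ⟨q, hq⟩
  obtain ⟨g0, hg0, hmax⟩ := hQ.exists_isMaxOn hQne hFc.continuousOn
  have hmax' : ∀ g, F g ≤ F g0 := by
    intro g
    obtain ⟨b, hb, q, hq, rfl⟩ := hBQ g
    have : F (b * q) = F q := by
      change hs (A (b * q)) (A (b * q)) = hs (A q) (A q)
      rw [hAb b hb q]
    rw [this]
    exact hmax hq
  set Y0 := A g0 with hY0
  -- the key identity
  have hkey : ∀ h : G, (ρ h : Matrix (Fin m) (Fin m) ℝ)ᵀ = ρ h →
      (ρ h : Matrix (Fin m) (Fin m) ℝ) * ρ h * Y0 = Y0 * (ρ h * ρ h) := by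
    intro h hs'
    set x : Matrix (Fin m) (Fin m) ℝ := (ρ h : Matrix (Fin m) (Fin m) ℝ) with hx
    set x' : Matrix (Fin m) (Fin m) ℝ := (((ρ h)⁻¹ : GL (Fin m) ℝ) : Matrix (Fin m) (Fin m) ℝ)
      with hx'
    have hxx' : x * x' = 1 := Units.mul_inv _
    have hx'x : x' * x = 1 := Units.inv_mul _
    have hx's : x'ᵀ = x' := by
      have h1 : x'ᵀ * x = 1 := by
        have := congrArg Matrix.transpose hxx'
        rwa [Matrix.transpose_mul, hs', Matrix.transpose_one] at this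
      have := congrArg (fun M => M * x') h1
      beta_reduce at this
      rwa [Matrix.mul_assoc, hxx', Matrix.mul_one, Matrix.one_mul] at this
    have e1 : A (g0 * h) = x' * Y0 * x := by
      rw [hY0, hAdef, hAdef, map_mul, _root_.mul_inv_rev, Units.val_mul, Units.val_mul]
      simp only [Matrix.mul_assoc, ← hx, ← hx']
    have e2 : A (g0 * h⁻¹) = x * Y0 * x' := by
      rw [hY0, hAdef, hAdef, map_mul, _root_.mul_inv_rev, Units.val_mul, Units.val_mul, map_inv, inv_inv]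
      simp only [Matrix.mul_assoc, ← hx, ← hx']
    have m1 : hs (x' * Y0 * x) (x' * Y0 * x) ≤ hs Y0 Y0 := by
      have := hmax' (g0 * h)
      change hs (A (g0 * h)) (A (g0 * h)) ≤ hs (A g0) (A g0) at this
      rwa [e1] at this
    have m2 : hs (x * Y0 * x') (x * Y0 * x') ≤ hs Y0 Y0 := by
      have := hmax' (g0 * h⁻¹)
      change hs (A (g0 * h⁻¹)) (A (g0 * h⁻¹)) ≤ hs (A g0) (A g0) at this
      rwa [e2] at this
    have m3 : hs (x' * Y0 * x) (x * Y0 * x') = hs Y0 Y0 := by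
      rw [hs_mul_right, hs', hs_mul_left, hx's, Matrix.mul_assoc (x * Y0), hx'x, Matrix.mul_one,
        ← Matrix.mul_assoc, hx'x, Matrix.one_mul]
    have m4 : hs (x * Y0 * x' - x' * Y0 * x) (x * Y0 * x' - x' * Y0 * x) ≤ 0 := by
      rw [hs_sub_left, hs_sub_right, hs_sub_right, m3, hs_comm (x * Y0 * x') (x' * Y0 * x), m3]
      linarith
    have m5 := sub_eq_zero.1 (hs_self_eq_zero m4)
    calc x * x * Y0 = x * (x * Y0 * x') * x := by
          simp only [Matrix.mul_assoc, hx'x, Matrix.mul_one]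
      _ = x * (x' * Y0 * x) * x := by rw [m5]
      _ = (x * x') * Y0 * (x * x) := by simp only [Matrix.mul_assoc]
      _ = Y0 * (x * x) := by rw [hxx', Matrix.one_mul]
  have hcomm : ρ.range ≤ centSub Y0 := by
    refine hR.symm_generate (isClosed_centSub Y0) fun P hP hPs t => ?_
    have hmem : expGL ((t / 2) • P) ∈ ρ.range := hP (t / 2)
    obtain ⟨h, hh⟩ := hmem
    have h1 := hkey h (by
      rw [hh, ← expGL_transpose, Matrix.transpose_smul, hPs])
    have h2 : expGL (t • P) = ρ h * ρ h := by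
      rw [hh, ← expGL_smul_add, add_halves]
    rw [mem_centSub, h2, Units.val_mul]
    exact h1
  have hYY0 : Y0 = Y := by
    have h1 : (ρ g0 : Matrix (Fin m) (Fin m) ℝ) * Y0 = Y0 * ρ g0 := hcomm ⟨g0, rfl⟩
    have h2 : (ρ g0 : Matrix (Fin m) (Fin m) ℝ) * Y0 = Y * ρ g0 := by
      rw [hY0, hAdef, Matrix.mul_assoc, ← Matrix.mul_assoc, Units.mul_inv, Matrix.one_mul]
    rw [h1] at h2
    have h3 := congrArg (fun M => M * (((ρ g0)⁻¹ : GL (Fin m) ℝ) : Matrix (Fin m) (Fin m) ℝ)) h2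
    beta_reduce at h3
    rwa [Matrix.mul_assoc, Units.mul_inv, Matrix.mul_one, Matrix.mul_assoc, Units.mul_inv,
      Matrix.mul_one] at h3
  rw [← hYY0]
  exact hcomm ⟨g, rfl⟩

/-- Borel density for fixed vectors, applied to the centraliser -/
theorem ss_centralizer (hG : IsLinearSemisimple G) (B : Set G) (hB : Cocompact B) (z : G)
    (hz : ∀ b ∈ B, b * z = z * b) (g : G) : g * z = z * g := by
  obtain ⟨m, ρ, hρ, hR⟩ := hG.toSS
  apply hρ.injective
  have h := density_matrix ρ hρ.continuous hR B hB (ρ z : Matrix (Fin m) (Fin m) ℝ) (by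
    intro b hb
    rw [← Units.val_mul, ← Units.val_mul, ← map_mul, ← map_mul, hz b hb]) g
  rw [map_mul, map_mul]
  ext1
  rw [Units.val_mul, Units.val_mul]
  exact h

end SS

end Pool.Agent.Lat
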