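import Pool.Agent.Lib_helper41.Lat.S.C

/-!
# Block S, part D: no characters
-/

namespace Pool.Agent.Lat

open Set Topology Matrix Filter

variable {m : ℕ}

/-- local logarithm of a product of one-parameter groups in a closed subgroup -/
theorem exists_log_mul (H : Subgroup (GL (Fin m) ℝ)) (hH : IsClosed (H : Set (GL (Fin m) ℝ)))
    {X Y : Matrix (Fin m) (Fin m) ℝ} (hX : X ∈ lieSet H) (hY : Y ∈ lieSet H) :
    ∃ Z : ℝ → Matrix (Fin m) (Fin m) ℝ,
      (∀ᶠ t in 𝓝 (0 : ℝ), Z t ∈ lieSet H ∧ expGL (Z t) = expGL (t • X) * expGL (t • Y)) ∧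
      Tendsto (fun t : ℝ => t⁻¹ • Z t) (𝓝[≠] 0) (𝓝 (X + Y)) := by
  let _ := Matrix.linftyOpNormedRing (n := Fin m) (α := ℝ)
  let _ := Matrix.linftyOpNormedAlgebra (n := Fin m) (R := ℝ) (α := ℝ)
  have hexp : HasStrictFDerivAt (NormedSpace.exp : Matrix (Fin m) (Fin m) ℝ → _)
      ((ContinuousLinearEquiv.refl ℝ (Matrix (Fin m) (Fin m) ℝ) :
        Matrix (Fin m) (Fin m) ℝ ≃L[ℝ] Matrix (Fin m) (Fin m) ℝ) :
        Matrix (Fin m) (Fin m) ℝ →L[ℝ] Matrix (Fin m) (Fin m) ℝ) 0 :=
    hasStrictFDerivAt_exp_zero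
  set log := hexp.localInverse _ _ _ with hlog
  have hl1 : ∀ᶠ x in 𝓝 (0 : Matrix (Fin m) (Fin m) ℝ), log (NormedSpace.exp x) = x :=
    hexp.eventually_left_inverse
  obtain ⟨W, hW, hWH⟩ := exp_nhds H hH _ hl1
  have hcont : Continuous fun t : ℝ => expGL (t • X) * expGL (t • Y) :=
    (continuous_expGL.comp (continuous_id.smul continuous_const)).mul
      (continuous_expGL.comp (continuous_id.smul continuous_const))
  have h0 : expGL ((0 : ℝ) • X) * expGL ((0 : ℝ) • Y) = 1 := by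
    rw [zero_smul, zero_smul, expGL_zero, mul_one]
  have hev : ∀ᶠ t in 𝓝 (0 : ℝ), expGL (t • X) * expGL (t • Y) ∈ W := by
    refine hcont.continuousAt.eventually_mem ?_
    rw [h0]; exact hW
  have hmem : ∀ t : ℝ, expGL (t • X) * expGL (t • Y) ∈ H := fun t => H.mul_mem (hX t) (hY t)
  refine ⟨fun t => log (NormedSpace.exp (t • X) * NormedSpace.exp (t • Y)), ?_, ?_⟩
  · filter_upwards [hev] with t ht
    obtain ⟨V, hV, hVU, hVe⟩ := hWH _ (hmem t) ht
    have h1 : log (NormedSpace.exp (t • X) * NormedSpace.exp (t • Y)) = V := by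
      have h2 : NormedSpace.exp (t • X) * NormedSpace.exp (t • Y) = NormedSpace.exp V := by
        have := congrArg (fun g : GL (Fin m) ℝ => (g : Matrix (Fin m) (Fin m) ℝ)) hVe
        beta_reduce at this
        rw [Units.val_mul] at this
        exact this.symm
      rw [h2]; exact hVU
    rw [h1]
    exact ⟨hV, hVe⟩
  · have hX1 : HasDerivAt (fun t : ℝ => NormedSpace.exp (t • X)) X 0 := by
      have := hasDerivAt_exp_smul_const X (0 : ℝ)
      rwa [zero_smul, NormedSpace.exp_zero, one_mul] at this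
    have hY1 : HasDerivAt (fun t : ℝ => NormedSpace.exp (t • Y)) Y 0 := by
      have := hasDerivAt_exp_smul_const Y (0 : ℝ)
      rwa [zero_smul, NormedSpace.exp_zero, one_mul] at this
    have hXY : HasDerivAt (fun t : ℝ => NormedSpace.exp (t • X) * NormedSpace.exp (t • Y))
        (X + Y) 0 := by
      have := hX1.fun_mul hY1
      simp only [zero_smul, NormedSpace.exp_zero, one_mul, mul_one] at this
      exact this
    have hL : HasFDerivAt log ((ContinuousLinearEquiv.refl ℝ (Matrix (Fin m) (Fin m) ℝ)).symm :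
        Matrix (Fin m) (Fin m) ℝ →L[ℝ] Matrix (Fin m) (Fin m) ℝ)
        (NormedSpace.exp ((0 : ℝ) • X) * NormedSpace.exp ((0 : ℝ) • Y)) := by
      have := hexp.to_localInverse.hasFDerivAt
      rw [NormedSpace.exp_zero] at this
      rw [zero_smul, zero_smul, NormedSpace.exp_zero, mul_one]
      exact this
    have hcomp := hL.comp_hasDerivAt (0 : ℝ) hXY
    have hsl := hasDerivAt_iff_tendsto_slope_zero.1 hcomp
    have hlog0 : log 1 = 0 := by
      have := hl1.self_of_nhds
      rwa [NormedSpace.exp_zero] at this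
    simp only [Function.comp_apply, zero_smul, NormedSpace.exp_zero, hlog0, zero_add, one_mul,
      sub_zero] at hsl
    exact hsl

section Char
variable {G : Type*} [Group G] [TopologicalSpace G]

/-- the derivative of a character (as a function on all matrices, zero off the Lie algebra) -/
noncomputable def charDer (ρ : G →* GL (Fin m) ℝ) (χ : G → ℝ) (X : Matrix (Fin m) (Fin m) ℝ) : ℝ :=
  open Classical in if h : X ∈ lieSet ρ.range then χ ((expGL_mem h).choose) else 0

omit [TopologicalSpace G] in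
theorem charDer_eq {ρ : G →* GL (Fin m) ℝ} (hρ : Function.Injective ρ) (χ : G → ℝ)
    {X : Matrix (Fin m) (Fin m) ℝ} (h : X ∈ lieSet ρ.range) {g : G} (hg : ρ g = expGL X) :
    charDer ρ χ X = χ g := by
  unfold charDer
  rw [dif_pos h]
  congr 1
  apply hρ
  rw [hg]; exact (expGL_mem h).choose_spec

theorem charDer_continuousOn {ρ : G →* GL (Fin m) ℝ} (hρ : IsClosedEmbedding ρ) {χ : G → ℝ}
    (hχ : Continuous χ) : ContinuousOn (charDer ρ χ) (lieSet ρ.range) := by
  rw [continuousOn_iff_continuous_domRestrict]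
  have hmem : ∀ X : lieSet ρ.range, expGL X.1 ∈ Set.range ρ := fun X => expGL_mem X.2
  have h1 : Continuous fun X : lieSet ρ.range => (⟨expGL X.1, hmem X⟩ : Set.range ρ) :=
    Continuous.subtype_mk (continuous_expGL.comp continuous_subtype_val) _
  have h2 : (lieSet ρ.range).domRestrict (charDer ρ χ) = fun X : lieSet ρ.range =>
      χ (hρ.isEmbedding.toHomeomorph.symm ⟨expGL X.1, hmem X⟩) := by
    funext X
    rw [Set.domRestrict_apply]
    refine charDer_eq hρ.injective χ X.2 ?_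
    have := congrArg Subtype.val (hρ.isEmbedding.toHomeomorph.apply_symm_apply
      ⟨expGL X.1, hmem X⟩)
    exact this
  rw [h2]
  exact hχ.comp (hρ.isEmbedding.toHomeomorph.symm.continuous.comp h1)

theorem charDer_smul {ρ : G →* GL (Fin m) ℝ} (hρ : IsClosedEmbedding ρ) {χ : G → ℝ}
    (hχ : Continuous χ) (hmul : ∀ g h, χ (g * h) = χ g + χ h) {X : Matrix (Fin m) (Fin m) ℝ}
    (hX : X ∈ lieSet ρ.range) (t : ℝ) : charDer ρ χ (t • X) = t * charDer ρ χ X := by
  have hadd : ∀ s t : ℝ, charDer ρ χ ((s + t) • X) = charDer ρ χ (s • X) + charDer ρ χ (t • X) := by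
    intro s t
    obtain ⟨g, hg⟩ := hX s
    obtain ⟨h, hh⟩ := hX t
    rw [charDer_eq hρ.injective χ (lieSet_smul _ hX s) hg,
      charDer_eq hρ.injective χ (lieSet_smul _ hX t) hh, ← hmul]
    refine charDer_eq hρ.injective χ (lieSet_smul _ hX _) ?_
    rw [map_mul, hg, hh, expGL_smul_add]
  have hcont : Continuous fun t : ℝ => charDer ρ χ (t • X) := by
    have h1 : Continuous fun t : ℝ => t • X := continuous_id.smul continuous_const
    exact (charDer_continuousOn hρ hχ).comp_continuous h1 fun t => lieSet_smul _ hX t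
  let f : ℝ →+ ℝ := AddMonoidHom.mk' (fun t : ℝ => charDer ρ χ (t • X)) hadd
  have hf : Continuous f := hcont
  have h3 := map_real_smul f hf t 1
  rw [smul_eq_mul, mul_one, smul_eq_mul] at h3
  change charDer ρ χ (t • X) = t * charDer ρ χ ((1 : ℝ) • X) at h3
  rwa [one_smul] at h3

theorem charDer_add {ρ : G →* GL (Fin m) ℝ} (hρ : IsClosedEmbedding ρ) (hR : SS ρ.range) {χ : G → ℝ}
    (hχ : Continuous χ) (hmul : ∀ g h, χ (g * h) = χ g + χ h) {X Y : Matrix (Fin m) (Fin m) ℝ}
    (hX : X ∈ lieSet ρ.range) (hY : Y ∈ lieSet ρ.range) :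
    charDer ρ χ (X + Y) = charDer ρ χ X + charDer ρ χ Y := by
  obtain ⟨Z, hZ, hlim⟩ := exists_log_mul ρ.range hR.closed hX hY
  have hXY : X + Y ∈ lieSet ρ.range := lieSet_add _ hR.closed hX hY
  have hc := (charDer_continuousOn hρ hχ) (X + Y) hXY
  have hev : ∀ᶠ t in 𝓝[≠] (0 : ℝ), t⁻¹ • Z t ∈ lieSet ρ.range ∧
      charDer ρ χ (t⁻¹ • Z t) = charDer ρ χ X + charDer ρ χ Y := by
    filter_upwards [mem_nhdsWithin_of_mem_nhds hZ, self_mem_nhdsWithin] with t ht ht0
    obtain ⟨h1, h2⟩ := ht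
    refine ⟨lieSet_smul _ h1 _, ?_⟩
    rw [charDer_smul hρ hχ hmul h1]
    obtain ⟨g, hg⟩ := hX t
    obtain ⟨h, hh⟩ := hY t
    have e1 : charDer ρ χ (Z t) = χ g + χ h := by
      rw [← hmul]
      refine charDer_eq hρ.injective χ h1 ?_
      rw [map_mul, hg, hh, h2]
    rw [e1, ← charDer_eq hρ.injective χ (lieSet_smul _ hX t) hg,
      ← charDer_eq hρ.injective χ (lieSet_smul _ hY t) hh, charDer_smul hρ hχ hmul hX,
      charDer_smul hρ hχ hmul hY]
    have : t ≠ 0 := ht0
    field_simp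
  have h1 : Tendsto (fun t : ℝ => t⁻¹ • Z t) (𝓝[≠] 0) (𝓝[lieSet ρ.range] (X + Y)) :=
    tendsto_nhdsWithin_iff.2 ⟨hlim, hev.mono fun t ht => ht.1⟩
  have h2 := hc.tendsto.comp h1
  have h3 : Tendsto (charDer ρ χ ∘ fun t : ℝ => t⁻¹ • Z t) (𝓝[≠] 0)
      (𝓝 (charDer ρ χ X + charDer ρ χ Y)) :=
    tendsto_const_nhds.congr' (hev.mono fun t ht => ht.2.symm)
  exact tendsto_nhds_unique h2 h3

end Char

section SS
variable {G : Type*} [Group G] [TopologicalSpace G] [IsTopologicalGroup G]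

theorem ss_noChar (hG : IsLinearSemisimple G) : NoChar G := by
  obtain ⟨m, ρ, hρ, hR⟩ := hG.toSS
  intro χ hχ hmul
  have h1 : χ 1 = 0 := by
    have := hmul 1 1
    rw [mul_one] at this
    linarith
  have hinv : ∀ g, χ g⁻¹ = -χ g := by
    intro g
    have := hmul g g⁻¹
    rw [mul_inv_cancel, h1] at this
    linarith
  -- invariance under conjugation
  have hconj : ∀ g : G, ∀ X ∈ lieSet ρ.range,
      charDer ρ χ ((ρ g : Matrix (Fin m) (Fin m) ℝ) * X *
        (((ρ g)⁻¹ : GL (Fin m) ℝ) : Matrix (Fin m) (Fin m) ℝ)) = charDer ρ χ X := by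
    intro g X hX
    obtain ⟨z, hz⟩ := expGL_mem hX
    have hmem : (ρ g : Matrix (Fin m) (Fin m) ℝ) * X *
        (((ρ g)⁻¹ : GL (Fin m) ℝ) : Matrix (Fin m) (Fin m) ℝ) ∈ lieSet ρ.range :=
      lieSet_conj _ hX ⟨g, rfl⟩
    have e1 : charDer ρ χ ((ρ g : Matrix (Fin m) (Fin m) ℝ) * X *
        (((ρ g)⁻¹ : GL (Fin m) ℝ) : Matrix (Fin m) (Fin m) ℝ)) = χ (g * z * g⁻¹) := by
      refine charDer_eq hρ.injective χ hmem ?_
      rw [map_mul, map_mul, map_inv, hz, expGL_conj]
    rw [e1, hmul, hmul, hinv, charDer_eq hρ.injective χ hX hz]; ring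
  -- the kernel
  let Wk : Submodule ℝ (Matrix (Fin m) (Fin m) ℝ) :=
    { carrier := {X | X ∈ lieSet ρ.range ∧ charDer ρ χ X = 0}
      zero_mem' := by
        refine ⟨(lieSub _ hR.closed).zero_mem, ?_⟩
        have := charDer_smul hρ hχ hmul (lieSub _ hR.closed).zero_mem 0
        rwa [zero_mul, smul_zero] at this
      add_mem' := fun {X Y} hX hY => ⟨lieSet_add _ hR.closed hX.1 hY.1, by
        rw [charDer_add hρ hR hχ hmul hX.1 hY.1, hX.2, hY.2, add_zero]⟩
      smul_mem' := fun c X hX => ⟨lieSet_smul _ hX.1 c, by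
        rw [charDer_smul hρ hχ hmul hX.1, hX.2, mul_zero]⟩ }
  have hker : ∀ X ∈ lieSet ρ.range, charDer ρ χ X = 0 := by
    intro X1 hX1
    obtain ⟨w, hw, hwv⟩ := hs_decomp Wk X1
    have hX0 : X1 - w ∈ lieSub _ hR.closed := Submodule.sub_mem _ hX1 hw.1
    set X0 := X1 - w with hX0def
    have hval : charDer ρ χ X0 = charDer ρ χ X1 := by
      have h2 := charDer_add hρ hR hχ hmul hX0 hw.1
      rw [hX0def, sub_add_cancel, hw.2, add_zero] at h2
      exact h2.symm
    have hcentral : ∀ r ∈ ρ.range, (r : Matrix (Fin m) (Fin m) ℝ) * X0 = X0 * r := by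
      rintro _ ⟨g, rfl⟩
      set x : Matrix (Fin m) (Fin m) ℝ := (ρ g : Matrix (Fin m) (Fin m) ℝ) with hx
      set x' : Matrix (Fin m) (Fin m) ℝ := (((ρ g)⁻¹ : GL (Fin m) ℝ) : Matrix (Fin m) (Fin m) ℝ)
        with hx'
      have hxx' : x * x' = 1 := Units.mul_inv _
      have hx'x : x' * x = 1 := Units.inv_mul _
      have hgX : x * X0 * x' ∈ lieSub _ hR.closed := lieSet_conj _ hX0 ⟨g, rfl⟩
      have hD : x * X0 * x' - X0 ∈ lieSub _ hR.closed := Submodule.sub_mem _ hgX hX0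
      have hD0 : charDer ρ χ (x * X0 * x' - X0) = 0 := by
        have h2 := charDer_add hρ hR hχ hmul hD hX0
        rw [sub_add_cancel] at h2
        have h3 := hconj g X0 hX0
        rw [← hx, ← hx'] at h3
        linarith
      obtain ⟨_, ⟨g', rfl⟩, hg'⟩ := hR.tr _ ⟨g, rfl⟩
      have hg1 : (ρ g' : Matrix (Fin m) (Fin m) ℝ) = xᵀ := hg'
      have hg2 : (((ρ g')⁻¹ : GL (Fin m) ℝ) : Matrix (Fin m) (Fin m) ℝ) = x'ᵀ := by
        have e1 : x'ᵀ * (ρ g' : Matrix (Fin m) (Fin m) ℝ) = 1 := by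
          rw [hg1, ← Matrix.transpose_mul, hxx', Matrix.transpose_one]
        have := congrArg (fun M => M * (((ρ g')⁻¹ : GL (Fin m) ℝ) : Matrix (Fin m) (Fin m) ℝ)) e1
        beta_reduce at this
        rw [Matrix.mul_assoc, Units.mul_inv, Matrix.mul_one, Matrix.one_mul] at this
        exact this.symm
      have horth : ∀ v ∈ Wk, hs (x * X0 * x' - X0) v = 0 := by
        intro v hv
        have hv' : xᵀ * v * x'ᵀ ∈ Wk := by
          have e1 : xᵀ * v * x'ᵀ ∈ lieSet ρ.range := by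
            rw [← hg1, ← hg2]
            exact lieSet_conj _ hv.1 ⟨g', rfl⟩
          refine ⟨e1, ?_⟩
          rw [← hg1, ← hg2, hconj g' v hv.1]
          exact hv.2
        rw [hs_sub_left, hwv v hv, sub_zero, hs_mul_right, hs_mul_left, ← Matrix.mul_assoc]
        exact hwv _ hv'
      have hz : x * X0 * x' - X0 = 0 :=
        hs_self_eq_zero (le_of_eq (horth _ ⟨hD, hD0⟩))
      have hz' := sub_eq_zero.1 hz
      calc x * X0 = x * X0 * x' * x := by rw [Matrix.mul_assoc (x * X0), hx'x, Matrix.mul_one]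
        _ = X0 * x := by rw [hz']
    have hX00 : X0 = 0 := hR.central_zero hX0 hcentral
    rw [← hval, hX00]
    exact Wk.zero_mem.2
  -- conclusion
  let K : Subgroup G :=
    { carrier := {g | χ g = 0}
      one_mem' := h1
      mul_mem' := fun {a b} ha hb => by
        change χ (a * b) = 0
        rw [hmul, show χ a = 0 from ha, show χ b = 0 from hb, add_zero]
      inv_mem' := fun {a} ha => by
        change χ a⁻¹ = 0
        rw [hinv, show χ a = 0 from ha, neg_zero] }
  have hle : ρ.range ≤ K.map ρ := by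
    refine hR.le_of_lie fun X hX t => ?_
    obtain ⟨g, hg⟩ := hX t
    refine ⟨g, ?_, hg⟩
    change χ g = 0
    rw [← charDer_eq hρ.injective χ (lieSet_smul _ hX t) hg]
    exact hker _ (lieSet_smul _ hX t)
  intro g
  obtain ⟨g', hg', hgg'⟩ := hle ⟨g, rfl⟩
  have := hρ.injective hgg'
  rw [← this]
  exact hg'

end SS

end Pool.Agent.Lat
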