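import Pool.Agent.Lib_helper41.Lat.S.B

/-!
# Block S, part E: matrix inequality for the invariant function
-/

namespace Pool.Agent.Lat

open Set Topology Matrix

section Mat
variable {N D : Type*} [Fintype N] [Fintype D] [DecidableEq N] [DecidableEq D]

omit [DecidableEq N] in
theorem gram_det_ne_zero {A : Matrix N D ℝ} (hA : ∀ v, A *ᵥ v = 0 → v = 0) :
    IsUnit (Aᵀ * A).det := by
  rw [isUnit_iff_ne_zero]
  intro h
  obtain ⟨v, hv, hv0⟩ := Matrix.exists_mulVec_eq_zero_iff.2 h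
  apply hv
  apply hA
  have h1 : (A *ᵥ v) ⬝ᵥ (A *ᵥ v) = 0 := by
    rw [Matrix.dotProduct_mulVec, ← Matrix.mulVec_transpose, Matrix.mulVec_mulVec, hv0,
      zero_dotProduct]
  exact dotProduct_self_eq_zero.1 h1

omit [DecidableEq N] [DecidableEq D] in
theorem trace_transpose_mul_self_nonneg' (V : Matrix N D ℝ) : 0 ≤ Matrix.trace (Vᵀ * V) := by
  simp only [Matrix.trace, Matrix.diag_apply, Matrix.mul_apply, Matrix.transpose_apply]
  exact Finset.sum_nonneg fun i _ => Finset.sum_nonneg fun j _ => mul_self_nonneg _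

omit [DecidableEq N] [DecidableEq D] in
theorem eq_zero_of_trace' (V : Matrix N D ℝ) (h : Matrix.trace (Vᵀ * V) = 0) : V = 0 := by
  simp only [Matrix.trace, Matrix.diag_apply, Matrix.mul_apply, Matrix.transpose_apply] at h
  rw [Finset.sum_eq_zero_iff_of_nonneg
    (fun i _ => Finset.sum_nonneg fun j _ => mul_self_nonneg _)] at h
  ext j i
  have h1 := h i (Finset.mem_univ _)
  rw [Finset.sum_eq_zero_iff_of_nonneg (fun j _ => mul_self_nonneg _)] at h1
  exact mul_self_eq_zero.1 (h1 j (Finset.mem_univ _))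

/-- The invariant function of the column space of `A`, relative to `S`. -/
noncomputable def thetaM (S : Matrix N N ℝ) (A : Matrix N D ℝ) : ℝ :=
  Matrix.trace ((Aᵀ * A)⁻¹ * ((S * A)ᵀ * (S * A)))

omit [DecidableEq N] in
theorem thetaM_mul_right (S : Matrix N N ℝ) (A : Matrix N D ℝ) (C : Matrix D D ℝ)
    (hC : IsUnit C.det) : thetaM S (A * C) = thetaM S A := by
  unfold thetaM
  have e1 : (A * C)ᵀ * (A * C) = Cᵀ * ((Aᵀ * A) * C) := by
    rw [Matrix.transpose_mul]; simp only [Matrix.mul_assoc]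
  have e2 : (S * (A * C))ᵀ * (S * (A * C)) = Cᵀ * ((S * A)ᵀ * (S * A)) * C := by
    rw [← Matrix.mul_assoc S A C, Matrix.transpose_mul (S * A) C]; simp only [Matrix.mul_assoc]
  have hCt : IsUnit Cᵀ.det := by rwa [Matrix.det_transpose]
  rw [e1, e2, Matrix.mul_inv_rev, Matrix.mul_inv_rev]
  have e3 : C⁻¹ * (Aᵀ * A)⁻¹ * Cᵀ⁻¹ * (Cᵀ * ((S * A)ᵀ * (S * A)) * C) =
      C⁻¹ * ((Aᵀ * A)⁻¹ * ((S * A)ᵀ * (S * A)) * C) := by
    calc _ = C⁻¹ * ((Aᵀ * A)⁻¹ * (Cᵀ⁻¹ * Cᵀ) * ((S * A)ᵀ * (S * A)) * C) := by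
          simp only [Matrix.mul_assoc]
      _ = _ := by rw [Matrix.nonsing_inv_mul _ hCt, Matrix.mul_one]
  rw [e3, Matrix.trace_mul_comm, Matrix.mul_assoc, Matrix.mul_nonsing_inv _ hC, Matrix.mul_one]

omit [DecidableEq N] in
theorem thetaM_aux {A X Y : Matrix N D ℝ} {G K : Matrix D D ℝ} (hGdef : Aᵀ * A = G)
    (hKdef : Yᵀ * Y = K) (hYX : Yᵀ * X = G) (hG : IsUnit G.det) (hK : IsUnit K.det) :
    ∃ V : Matrix N N ℝ, Matrix.trace (G⁻¹ * (Xᵀ * X)) - Matrix.trace (K⁻¹ * G) =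
        Matrix.trace (Vᵀ * V) ∧ (V = 0 → X = Y * (K⁻¹ * G)) := by
  have hGt : Gᵀ = G := by rw [← hGdef, Matrix.transpose_mul, Matrix.transpose_transpose]
  have hKt : Kᵀ = K := by rw [← hKdef, Matrix.transpose_mul, Matrix.transpose_transpose]
  have hGit : G⁻¹ᵀ = G⁻¹ := by rw [Matrix.transpose_nonsing_inv, hGt]
  have hXY : Xᵀ * Y = G := by
    have := congrArg Matrix.transpose hYX
    rwa [Matrix.transpose_mul, Matrix.transpose_transpose, hGt] at this
  obtain ⟨W, hWdef⟩ : ∃ W, W = X - Y * (K⁻¹ * G) := ⟨_, rfl⟩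
  have hYW : Yᵀ * W = 0 := by
    rw [hWdef, Matrix.mul_sub, hYX, ← Matrix.mul_assoc, hKdef, ← Matrix.mul_assoc,
      Matrix.mul_nonsing_inv _ hK, Matrix.one_mul, sub_self]
  have hWY : Wᵀ * Y = 0 := by
    have := congrArg Matrix.transpose hYW
    rwa [Matrix.transpose_mul, Matrix.transpose_transpose, Matrix.transpose_zero] at this
  have hWW : Wᵀ * W = Xᵀ * X - G * (K⁻¹ * G) := by
    have e : Wᵀ * W = Wᵀ * X - (Wᵀ * Y) * (K⁻¹ * G) := by
      have e0 : Wᵀ * W = Wᵀ * (X - Y * (K⁻¹ * G)) := by rw [← hWdef]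
      rw [e0, Matrix.mul_sub, Matrix.mul_assoc Wᵀ Y]
    rw [e, hWY, Matrix.zero_mul, sub_zero, hWdef, Matrix.transpose_sub, Matrix.sub_mul]
    have e2 : (Y * (K⁻¹ * G))ᵀ * X = G * (K⁻¹ * G) := by
      rw [Matrix.transpose_mul, Matrix.mul_assoc, hYX, Matrix.transpose_mul,
        Matrix.transpose_nonsing_inv, hKt, hGt, Matrix.mul_assoc]
    rw [e2]
  refine ⟨W * G⁻¹ * Aᵀ, ?_, ?_⟩
  · have e3 : (W * G⁻¹ * Aᵀ)ᵀ * (W * G⁻¹ * Aᵀ) = A * (G⁻¹ * (Wᵀ * W) * G⁻¹ * Aᵀ) := by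
      rw [Matrix.transpose_mul, Matrix.transpose_mul, Matrix.transpose_transpose, hGit]
      simp only [Matrix.mul_assoc]
    rw [e3, Matrix.trace_mul_comm A, Matrix.mul_assoc (G⁻¹ * (Wᵀ * W) * G⁻¹), hGdef,
      Matrix.mul_assoc (G⁻¹ * (Wᵀ * W)), Matrix.nonsing_inv_mul _ hG, Matrix.mul_one, hWW,
      Matrix.mul_sub, Matrix.trace_sub, ← Matrix.mul_assoc G⁻¹ G,
      Matrix.nonsing_inv_mul _ hG, Matrix.one_mul]
  · intro hV
    have hW0 : W = 0 := by
      have := congrArg (fun M => M * A) hV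
      beta_reduce at this
      rwa [Matrix.mul_assoc, hGdef, Matrix.mul_assoc, Matrix.nonsing_inv_mul _ hG,
        Matrix.mul_one, Matrix.zero_mul] at this
    rw [hW0] at hWdef
    exact sub_eq_zero.1 hWdef.symm

/-- The main identity. -/
theorem thetaM_sub {T S : Matrix N N ℝ} (hTS : T * S = 1) (hT : Tᵀ = T) {A : Matrix N D ℝ}
    (hA : ∀ v, A *ᵥ v = 0 → v = 0) :
    ∃ V : Matrix N N ℝ, thetaM S A - thetaM S (T * A) = Matrix.trace (Vᵀ * V) ∧
      (V = 0 → ∃ C : Matrix D D ℝ, S * A = T * A * C) := by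
  have hST : S * T = 1 := mul_eq_one_comm.1 hTS
  have hTA : ∀ v, (T * A) *ᵥ v = 0 → v = 0 := by
    intro v hv
    apply hA
    have := congrArg (fun w => S *ᵥ w) hv
    beta_reduce at this
    rwa [Matrix.mulVec_mulVec, ← Matrix.mul_assoc, hST, Matrix.one_mul, Matrix.mulVec_zero] at this
  obtain ⟨V, hV1, hV2⟩ := thetaM_aux (A := A) (X := S * A) (Y := T * A) rfl rfl (by
    rw [Matrix.transpose_mul, hT, Matrix.mul_assoc, ← Matrix.mul_assoc T, hTS,
      Matrix.one_mul]) (gram_det_ne_zero hA) (gram_det_ne_zero hTA)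
  refine ⟨V, ?_, fun h => ⟨_, hV2 h⟩⟩
  rw [← hV1]
  unfold thetaM
  rw [← Matrix.mul_assoc S T A, hST, Matrix.one_mul]

/-- monotonicity and the equality case -/
theorem thetaM_le {T S : Matrix N N ℝ} (hTS : T * S = 1) (hT : Tᵀ = T) {A : Matrix N D ℝ}
    (hA : ∀ v, A *ᵥ v = 0 → v = 0) : thetaM S (T * A) ≤ thetaM S A := by
  obtain ⟨V, hV1, -⟩ := thetaM_sub hTS hT hA
  have := trace_transpose_mul_self_nonneg' V
  linarith

theorem thetaM_eq {T S : Matrix N N ℝ} (hTS : T * S = 1) (hT : Tᵀ = T) {A : Matrix N D ℝ}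
    (hA : ∀ v, A *ᵥ v = 0 → v = 0) (h : thetaM S (T * A) = thetaM S A) :
    ∃ C : Matrix D D ℝ, S * A = T * A * C := by
  obtain ⟨V, hV1, hV2⟩ := thetaM_sub hTS hT hA
  exact hV2 (eq_zero_of_trace' V (by rw [← hV1, h, sub_self]))

omit [DecidableEq N] in
theorem continuous_thetaM {Z : Type*} [TopologicalSpace Z] (S : Matrix N N ℝ)
    {A : Z → Matrix N D ℝ} (hA : Continuous A) (hinj : ∀ z, ∀ v, A z *ᵥ v = 0 → v = 0) :
    Continuous fun z => thetaM S (A z) := by
  unfold thetaM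
  have h1 : Continuous fun z => (A z)ᵀ * A z := hA.matrix_transpose.matrix_mul hA
  have h2 : Continuous fun z => ((A z)ᵀ * A z)⁻¹ := by
    have : (fun z => ((A z)ᵀ * A z)⁻¹) = fun z => (((A z)ᵀ * A z).det)⁻¹ • ((A z)ᵀ * A z).adjugate := by
      funext z
      rw [Matrix.inv_def, Ring.inverse_eq_inv']
    rw [this]
    refine Continuous.smul (h1.matrix_det.inv₀ fun z => (gram_det_ne_zero (hinj z)).ne_zero) ?_
    exact h1.matrix_adjugate
  have h3 : Continuous fun z => S * A z := continuous_const.matrix_mul hA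
  exact (h2.matrix_mul (h3.matrix_transpose.matrix_mul h3)).matrix_trace

end Mat

section Vec
variable {m : ℕ} {D : Type*} [Fintype D]

/-- the matrix whose columns are the vectorisations -/
def vecM (a : D → Matrix (Fin m) (Fin m) ℝ) : Matrix (Fin m × Fin m) D ℝ :=
  Matrix.of fun p i => a i p.1 p.2

omit [Fintype D] in
theorem vecM_mul (x y : Matrix (Fin m) (Fin m) ℝ) (a : D → Matrix (Fin m) (Fin m) ℝ) :
    vecM (fun i => x * a i * y) = (Matrix.kronecker x yᵀ) * vecM a := by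
  ext p i
  simp only [vecM, Matrix.of_apply, Matrix.mul_apply, Matrix.kronecker, Matrix.kroneckerMap_apply,
    Matrix.transpose_apply, Fintype.sum_prod_type, Finset.sum_mul]
  rw [Finset.sum_comm]
  refine Finset.sum_congr rfl fun q _ => Finset.sum_congr rfl fun r _ => by ring

theorem vecM_mulVec (a : D → Matrix (Fin m) (Fin m) ℝ) (v : D → ℝ) (h : vecM a *ᵥ v = 0) :
    ∑ i, v i • a i = 0 := by
  ext p q
  have := congrFun h (p, q)
  simp only [Matrix.mulVec, dotProduct, vecM, Matrix.of_apply, Pi.zero_apply] at this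
  rw [Matrix.sum_apply]
  simp only [Matrix.smul_apply, smul_eq_mul, Matrix.zero_apply]
  rw [← this]
  exact Finset.sum_congr rfl fun i _ => mul_comm _ _

theorem vecM_eq_mul (a b : D → Matrix (Fin m) (Fin m) ℝ) (C : Matrix D D ℝ)
    (h : vecM a = vecM b * C) (i : D) : a i = ∑ j, C j i • b j := by
  ext p q
  have := congrFun (congrFun h (p, q)) i
  simp only [Matrix.mul_apply, vecM, Matrix.of_apply] at this
  rw [Matrix.sum_apply, this]
  exact Finset.sum_congr rfl fun j _ => by rw [Matrix.smul_apply, smul_eq_mul, mul_comm]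

theorem eq_vecM_mul (a b : D → Matrix (Fin m) (Fin m) ℝ) (C : Matrix D D ℝ)
    (h : ∀ i, a i = ∑ j, C j i • b j) : vecM a = vecM b * C := by
  ext p i
  simp only [Matrix.mul_apply, vecM, Matrix.of_apply]
  rw [h i, Matrix.sum_apply]
  exact Finset.sum_congr rfl fun j _ => by rw [Matrix.smul_apply, smul_eq_mul, mul_comm]

theorem kron_mul_inv {x x' y y' : Matrix (Fin m) (Fin m) ℝ} (hx : x * x' = 1) (hy : y * y' = 1) :
    Matrix.kronecker x y * Matrix.kronecker x' y' = 1 := by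
  have := (Matrix.mul_kronecker_mul x x' y y').symm
  rw [hx, hy, Matrix.one_kronecker_one] at this
  exact this

end Vec

end Pool.Agent.Lat
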