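import Pool.Agent.Lib_helper41.Lat.S.D
import Pool.Agent.Lib_helper41.Lat.S.F

/-!
# Block S, part G: structure theorem
-/

namespace Pool.Agent.Lat

open Set Topology Matrix Filter

variable {m : ℕ}

theorem trace_bracket (X Y Z : Matrix (Fin m) (Fin m) ℝ) :
    Matrix.trace ((X * Y - Y * X) * Z) = Matrix.trace (X * (Y * Z - Z * Y)) := by
  rw [Matrix.sub_mul, Matrix.mul_sub, Matrix.trace_sub, Matrix.trace_sub]
  congr 1
  · rw [Matrix.mul_assoc]
  · rw [Matrix.mul_assoc, Matrix.trace_mul_comm, Matrix.mul_assoc]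

theorem hs_eq_trace_of_symm {Z : Matrix (Fin m) (Fin m) ℝ} (h : Zᵀ = Z) :
    hs Z Z = Matrix.trace (Z * Z) := by
  unfold hs; rw [h]

theorem hs_eq_trace_transpose (Z : Matrix (Fin m) (Fin m) ℝ) :
    hs Z Z = Matrix.trace (Z * Zᵀ) := by
  unfold hs; rw [Matrix.trace_mul_comm]

theorem hs_bracket (X A B : Matrix (Fin m) (Fin m) ℝ) :
    hs (X * A - A * X) B = hs A (Xᵀ * B - B * Xᵀ) := by
  rw [hs_sub_left, hs_sub_right, hs_mul_left, hs_mul_right]

/-- An ideal which is invariant meets its trace-orthogonal in zero. -/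
theorem SS.ideal_nondeg {R : Subgroup (GL (Fin m) ℝ)} (hR : SS R)
    (W : Submodule ℝ (Matrix (Fin m) (Fin m) ℝ)) (hWR : ∀ X ∈ W, X ∈ lieSet R)
    (hbr : ∀ Y ∈ lieSet R, ∀ X ∈ W, Y * X - X * Y ∈ W)
    {X : Matrix (Fin m) (Fin m) ℝ} (hX : X ∈ W) (hX0 : ∀ Y ∈ W, Matrix.trace (X * Y) = 0) :
    X = 0 := by
  have hbr' : ∀ Y ∈ lieSet R, ∀ X ∈ W, X * Y - Y * X ∈ W := by
    intro Y hY X hX
    have := W.neg_mem (hbr Y hY X hX)
    rwa [neg_sub] at this
  -- elements of the intersection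
  let I : Set (Matrix (Fin m) (Fin m) ℝ) := {X | X ∈ W ∧ ∀ Y ∈ W, Matrix.trace (X * Y) = 0}
  have hI : ∀ V ∈ lieSet R, ∀ X ∈ I, X * V - V * X ∈ I := by
    intro V hV X hX
    refine ⟨hbr' V hV X hX.1, fun Y hY => ?_⟩
    rw [trace_bracket]
    exact hX.2 _ (hbr V hV Y hY)
  have hI' : ∀ V ∈ lieSet R, ∀ X ∈ I, V * X - X * V ∈ I := by
    intro V hV X hX
    have h1 := hI V hV X hX
    refine ⟨hbr V hV X hX.1, fun Y hY => ?_⟩
    have h2 := h1.2 Y hY
    have h3 : (V * X - X * V) * Y = -((X * V - V * X) * Y) := by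
      rw [← Matrix.neg_mul, neg_sub]
    rw [h3, Matrix.trace_neg, h2, neg_zero]
  -- abelian
  have hab : ∀ X ∈ I, ∀ Y ∈ I, X * Y - Y * X = 0 := by
    intro X hX Y hY
    set C := X * Y - Y * X with hC
    have hCI : C ∈ I := hI Y (hWR Y hY.1) X hX
    have hCt : Cᵀ ∈ lieSet R := hR.lie_tr (hWR _ hCI.1)
    have h1 : Matrix.trace (C * Cᵀ) = 0 := by
      rw [hC, trace_bracket, ← hC]
      exact hX.2 _ (hI _ hCt Y hY).1
    exact hs_self_eq_zero (by rw [hs_eq_trace_transpose, h1])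
  -- normal
  have hnorm : ∀ X ∈ I, X * Xᵀ - Xᵀ * X = 0 := by
    intro X hX
    have hXt : Xᵀ ∈ lieSet R := hR.lie_tr (hWR _ hX.1)
    set Z := X * Xᵀ - Xᵀ * X with hZ
    have hZI : Z ∈ I := hI _ hXt X hX
    have hZt : Zᵀ = Z := by
      rw [hZ, Matrix.transpose_sub, Matrix.transpose_mul, Matrix.transpose_mul,
        Matrix.transpose_transpose]
    have h1 : Matrix.trace (Z * Z) = 0 := by
      conv_lhs => rw [hZ]
      rw [← hZ, trace_bracket]
      exact hX.2 _ (hI' _ hXt Z hZI).1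
    exact hs_self_eq_zero (by rw [hs_eq_trace_of_symm hZt, h1])
  have hXI : X ∈ I := ⟨hX, hX0⟩
  -- commutes with the Lie algebra
  have hcomm : ∀ V ∈ lieSet R, X * V - V * X = 0 := by
    intro V hV
    set W1 := X * V - V * X with hW1
    have hW1I : W1 ∈ I := hI V hV X hXI
    have h1 : X * W1 - W1 * X = 0 := hab X hXI W1 hW1I
    have h2 : Xᵀ * W1 - W1 * Xᵀ = 0 := by
      refine hs_self_eq_zero (le_of_eq ?_)
      have e1 : hs (Xᵀ * W1 - W1 * Xᵀ) (Xᵀ * W1 - W1 * Xᵀ) =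
          hs W1 (X * (Xᵀ * W1 - W1 * Xᵀ) - (Xᵀ * W1 - W1 * Xᵀ) * X) := by
        rw [hs_bracket, Matrix.transpose_transpose]
      have e2 : X * (Xᵀ * W1 - W1 * Xᵀ) - (Xᵀ * W1 - W1 * Xᵀ) * X =
          Xᵀ * (X * W1 - W1 * X) - (X * W1 - W1 * X) * Xᵀ + ((X * Xᵀ - Xᵀ * X) * W1 -
            W1 * (X * Xᵀ - Xᵀ * X)) := by
        noncomm_ring
      rw [e1, e2, h1, hnorm X hXI]
      simp [hs]
    refine hs_self_eq_zero (le_of_eq ?_)
    conv_lhs => rw [hW1]
    rw [← hW1, hs_bracket, h2]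
    simp [hs]
  refine hR.central_zero (hWR X hX) ?_
  have hle : R ≤ centSub X := by
    refine hR.le_of_lie fun V hV t => ?_
    rw [mem_centSub]
    refine expGL_commute ?_
    have := hcomm V hV
    rw [Matrix.smul_mul, Matrix.mul_smul, (sub_eq_zero.1 this)]
  exact fun g hg => hle hg

section SS
variable {G : Type*} [Group G] [TopologicalSpace G] [IsTopologicalGroup G]

theorem ss_struct (hG : IsLinearSemisimple G) (H : Subgroup G) (hH : IsClosed (H : Set G))
    (hrec : Rec (H : Set G)) :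
    ∃ H₀ C : Subgroup G, H₀ ≤ H ∧ (∃ U ∈ 𝓝 (1 : G), ∀ h ∈ H, h ∈ U → h ∈ H₀) ∧
      IsClosed (H₀ : Set G) ∧ CompactlyGen H₀ ∧ IsClosed (C : Set G) ∧
      (∀ h ∈ H₀, ∀ c ∈ C, h * c = c * h) ∧ (∀ g : G, ∃ h ∈ H₀, ∃ c ∈ C, g = h * c) ∧
      (Cocompact (H₀ : Set G) → ∀ c ∈ C, ∀ g : G, g * c = c * g) := by
  obtain ⟨m, ρ, hρ, hR⟩ := hG.toSS
  have hHM := isClosed_map hρ H hH
  set HM := H.map ρ with hHMdef
  set W := lieSub HM hHM with hW
  have hWH : ∀ X ∈ W, X ∈ lieSet HM := fun X hX => hX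
  have hHMR : HM ≤ ρ.range := by
    rintro _ ⟨h, -, rfl⟩
    exact ⟨h, rfl⟩
  have hWR : ∀ X ∈ W, X ∈ lieSet ρ.range := fun X hX => lieSet_mono hHMR hX
  have hstab : ρ.range ≤ stabSub W := lie_normal hρ hR H hH hrec
  have hbr : ∀ Y ∈ lieSet ρ.range, ∀ X ∈ W, Y * X - X * Y ∈ W := by
    intro Y hY X hX
    exact bracket_mem_of_conj W fun t => (hstab (hY t)).1 X hX
  have hnd : ∀ X ∈ W, (∀ Y ∈ W, Matrix.trace (X * Y) = 0) → X = 0 := fun X hX h =>
    hR.ideal_nondeg W hWR hbr hX h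
  -- complement commutes with W
  have hcompl : ∀ Y ∈ lieSet ρ.range, (∀ Z ∈ W, Matrix.trace (Y * Z) = 0) → ∀ X ∈ W,
      Y * X = X * Y := by
    intro Y hY hYZ X hX
    have h1 : Y * X - X * Y ∈ W := hbr Y hY X hX
    have h2 : Y * X - X * Y = 0 := by
      refine hnd _ h1 fun Z hZ => ?_
      rw [trace_bracket]
      exact hYZ _ (hbr X (hWR X hX) Z hZ)
    exact sub_eq_zero.1 h2
  -- the subgroups
  set E := Subgroup.closure (expGL '' (W : Set (Matrix (Fin m) (Fin m) ℝ))) with hE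
  have hEH : E ≤ HM := by
    rw [hE, Subgroup.closure_le]
    rintro _ ⟨X, hX, rfl⟩
    exact expGL_mem (hWH X hX)
  let C : Subgroup G := (⨅ X : W, centSub (X : Matrix (Fin m) (Fin m) ℝ)).comap ρ
  have hC : ∀ c, c ∈ C ↔ ∀ X ∈ W, (ρ c : Matrix (Fin m) (Fin m) ℝ) * X = X * ρ c := by
    intro c
    rw [Subgroup.mem_comap, Subgroup.mem_iInf]
    exact ⟨fun h X hX => h ⟨X, hX⟩, fun h X => h X.1 X.2⟩
  let H₀ : Subgroup G := E.comap ρ
  have hH₀ : ∀ h, h ∈ H₀ ↔ ρ h ∈ E := fun h => Iff.rfl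
  have hH₀H : H₀ ≤ H := by
    intro h hh
    obtain ⟨h', hh', he⟩ := hEH hh
    rw [← hρ.injective he]; exact hh'
  have hU : ∃ U ∈ 𝓝 (1 : G), ∀ h ∈ H, h ∈ U → h ∈ H₀ := by
    obtain ⟨V, hV, hVH⟩ := exp_nhds HM hHM univ univ_mem
    refine ⟨ρ ⁻¹' V, hρ.continuous.continuousAt.preimage_mem_nhds (by rwa [map_one]), ?_⟩
    intro h hh hhV
    obtain ⟨X, hX, -, he⟩ := hVH (ρ h) ⟨h, hh, rfl⟩ hhV
    rw [hH₀, ← he]
    exact Subgroup.subset_closure ⟨X, hX, rfl⟩
  have hcomm : ∀ h ∈ H₀, ∀ c ∈ C, h * c = c * h := by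
    intro h hh c hc
    have h1 : E ≤ Subgroup.centralizer {ρ c} := by
      rw [hE, Subgroup.closure_le]
      rintro _ ⟨X, hX, rfl⟩
      rw [SetLike.mem_coe, Subgroup.mem_centralizer_iff]
      rintro _ rfl
      ext1
      rw [Units.val_mul, Units.val_mul]
      exact (expGL_commute ((hC c).1 hc X hX).symm).symm
    have h2 := (Subgroup.mem_centralizer_iff.1 (h1 hh)) (ρ c) rfl
    apply hρ.injective
    rw [map_mul, map_mul, h2]
  refine ⟨H₀, C, hH₀H, hU, ?_, ?_, ?_, hcomm, ?_, ?_⟩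
  · -- closed
    obtain ⟨U, hU1, hU2⟩ := hU
    refine isClosed_of_closure_subset fun g hg => ?_
    have hgH : g ∈ (H : Set G) := hH.closure_subset_iff.2 hH₀H hg
    have hcont : Continuous fun h : G => h⁻¹ * g := continuous_inv.mul continuous_const
    have hnb : (fun h : G => h⁻¹ * g) ⁻¹' U ∈ 𝓝 g :=
      hcont.continuousAt.preimage_mem_nhds (by rw [inv_mul_cancel]; exact hU1)
    obtain ⟨h₀, hh₀, hh₀'⟩ := mem_closure_iff_nhds.1 hg _ hnb
    have h1 : h₀⁻¹ * g ∈ H₀ := hU2 _ (H.mul_mem (H.inv_mem (hH₀H hh₀')) hgH) hh₀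
    have h2 := H₀.mul_mem hh₀' h1
    rwa [mul_inv_cancel_left] at h2
  · -- compactly generated
    have i1 : LocallyCompactSpace (Matrix (Fin m) (Fin m) ℝ) :=
      inferInstanceAs (LocallyCompactSpace (Fin m → Fin m → ℝ))
    obtain ⟨K, hK, hK0⟩ := exists_compact_mem_nhds (0 : Matrix (Fin m) (Fin m) ℝ)
    have hWc : IsClosed (W : Set (Matrix (Fin m) (Fin m) ℝ)) := W.closed_of_finiteDimensional
    have hKW : IsCompact (K ∩ (W : Set (Matrix (Fin m) (Fin m) ℝ))) := hK.inter_right hWc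
    refine ⟨ρ ⁻¹' (expGL '' (K ∩ (W : Set (Matrix (Fin m) (Fin m) ℝ)))),
      hρ.isCompact_preimage (hKW.image continuous_expGL), ?_⟩
    apply le_antisymm
    · rw [Subgroup.closure_le]
      rintro g ⟨X, hX, he⟩
      rw [SetLike.mem_coe, hH₀, ← he]
      exact Subgroup.subset_closure ⟨X, hX.2, rfl⟩
    · intro g hg
      have hle : E ≤ (Subgroup.closure (ρ ⁻¹' (expGL '' (K ∩ (W : Set _))))).map ρ := by
        rw [hE, Subgroup.closure_le]
        rintro _ ⟨X, hX, rfl⟩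
        have hlim : Tendsto (fun n : ℕ => (1 / ((n : ℝ) + 1)) • X) atTop (𝓝 0) := by
          have := (tendsto_one_div_add_atTop_nhds_zero_nat (𝕜 := ℝ)).smul_const X
          rwa [zero_smul] at this
        obtain ⟨n, hn⟩ := (hlim.eventually_mem hK0).exists
        have hXn : (1 / ((n : ℝ) + 1)) • X ∈ W := W.smul_mem _ hX
        obtain ⟨q, hq⟩ := hHMR (expGL_mem (hWH _ hXn))
        have hqm : q ∈ Subgroup.closure (ρ ⁻¹' (expGL '' (K ∩ (W : Set _)))) :=
          Subgroup.subset_closure ⟨_, ⟨hn, hXn⟩, hq.symm⟩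
        have hpow : ∀ k : ℕ, expGL ((k : ℝ) • ((1 / ((n : ℝ) + 1)) • X)) = ρ (q ^ k) := by
          intro k
          induction k with
          | zero => rw [Nat.cast_zero, zero_smul, expGL_zero, pow_zero, map_one]
          | succ k ih =>
            rw [Nat.cast_succ, expGL_smul_add, ih, one_smul, pow_succ, map_mul, hq]
        refine ⟨q ^ (n + 1), Subgroup.pow_mem _ hqm _, ?_⟩
        rw [← hpow, smul_smul]
        have : ((n + 1 : ℕ) : ℝ) * (1 / ((n : ℝ) + 1)) = 1 := by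
          rw [Nat.cast_succ, mul_one_div_cancel]
          positivity
        rw [this, one_smul]
      obtain ⟨g', hg', he⟩ := hle hg
      rw [← hρ.injective he]; exact hg'
  · -- C closed
    have : (C : Set G) = ⋂ (X : Matrix (Fin m) (Fin m) ℝ) (_ : X ∈ W), ρ ⁻¹' (centSub X) := by
      ext c
      rw [SetLike.mem_coe, hC]
      simp only [mem_iInter]
      exact Iff.rfl
    rw [this]
    exact isClosed_iInter fun X => isClosed_iInter fun _ =>
      (isClosed_centSub X).preimage hρ.continuous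
  · -- product
    let P : Subgroup G :=
      { carrier := {g | ∃ h ∈ H₀, ∃ c ∈ C, g = h * c}
        one_mem' := ⟨1, H₀.one_mem, 1, C.one_mem, by rw [mul_one]⟩
        mul_mem' := by
          rintro _ _ ⟨h, hh, c, hc, rfl⟩ ⟨h', hh', c', hc', rfl⟩
          refine ⟨h * h', H₀.mul_mem hh hh', c * c', C.mul_mem hc hc', ?_⟩
          have := hcomm h' hh' c hc
          rw [mul_assoc, ← mul_assoc c, ← this]
          simp only [mul_assoc]
        inv_mem' := by
          rintro _ ⟨h, hh, c, hc, rfl⟩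
          refine ⟨h⁻¹, H₀.inv_mem hh, c⁻¹, C.inv_mem hc, ?_⟩
          rw [_root_.mul_inv_rev]
          exact (hcomm _ (H₀.inv_mem hh) _ (C.inv_mem hc)).symm }
    have hle : ρ.range ≤ P.map ρ := by
      refine hR.le_of_lie fun X hX t => ?_
      obtain ⟨w, hw, hwv⟩ := form_decomp (trForm m) (fun x y => by
        rw [trForm_apply, trForm_apply, Matrix.trace_mul_comm]) W (fun x hx h => by
          refine hnd x hx fun y hy => ?_
          have := h y hy
          rw [trForm_apply, Matrix.trace_mul_comm] at this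
          exact this) X
      have hX2 : X - w ∈ lieSet ρ.range := (lieSub _ hR.closed).sub_mem hX (hWR w hw)
      have hc2 := hcompl (X - w) hX2 (fun Z hZ => hwv Z hZ)
      have hsplit : expGL (t • X) = expGL (t • w) * expGL (t • (X - w)) := by
        have h1 : t • X = t • w + t • (X - w) := by
          rw [← smul_add, add_sub_cancel]
        rw [h1]
        refine expGL_add ?_
        have h2 : Commute w (X - w) := (hc2 w hw).symm
        exact (h2.smul_left t).smul_right t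
      obtain ⟨h, hh⟩ := hWR w hw t
      obtain ⟨c, hc⟩ := hX2 t
      refine ⟨h * c, ⟨h, ?_, c, ?_, rfl⟩, ?_⟩
      · rw [hH₀, hh]
        exact Subgroup.subset_closure ⟨t • w, W.smul_mem t hw, rfl⟩
      · rw [hC]
        intro Y hY
        rw [hc]
        refine expGL_commute ?_
        rw [Matrix.smul_mul, Matrix.mul_smul, hc2 Y hY]
      · rw [map_mul, hh, hc, hsplit]
    intro g
    obtain ⟨g', hg', he⟩ := hle ⟨g, rfl⟩
    rw [← hρ.injective he]
    exact hg'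
  · intro hcc c hc
    exact ss_centralizer hG H₀ hcc c fun b hb => hcomm b hb c hc

end SS

end Pool.Agent.Lat
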